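import Mathlib

set_option autoImplicit false

/-!
# Labelled strict partial orders on `Fin n` counted by the number of comparable pairs
-/

namespace Pool.Agent.H2R2.PC

open Finset

/-- strict partial orders on `Fin n` with exactly `k` comparable pairs -/
def PO (n k : ℕ) : Finset (Fin n → Fin n → Bool) :=
  (Finset.univ : Finset (Fin n → Fin n → Bool)).filter
    (fun r => (∀ i : Fin n, r i i = false) ∧
      (∀ i j l : Fin n, r i j = true → r j l = true → r i l = true) ∧
      ((Finset.univ : Finset (Fin n × Fin n)).filter (fun p => r p.1 p.2 = true)).card = k)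

/-- LOWE -/
def S_LOWE : Prop := ∀ n k : ℕ, k ≤ n → n + 2 * k + 1 ≤ (n - k) ^ 2 →
  (PO n k).card ≤ (PO n (k + 1)).card

/-- HIGH -/
def S_HIGH : Prop := ∀ n j : ℕ, 3 * (j + 1) ≤ n →
  (PO n (n.choose 2 - j)).card ≤ (PO n (n.choose 2 - j - 1)).card

end Pool.Agent.H2R2.PC
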