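import Pool.Agent.H2R2.PC.Defs

set_option autoImplicit false

namespace Pool.Agent.H2R2.PC

open Finset

/-- delete the pair `(x, y)` -/
def HIGH_del {n : ℕ} (r : Fin n → Fin n → Bool) (x y : Fin n) : Fin n → Fin n → Bool :=
  fun a b => if a = x ∧ b = y then false else r a b

/-- insert the pair `(x, y)` -/
def HIGH_ins {n : ℕ} (r : Fin n → Fin n → Bool) (x y : Fin n) : Fin n → Fin n → Bool :=
  fun a b => if a = x ∧ b = y then true else r a b

/-- the pairs of a relation -/
def HIGH_pr {n : ℕ} (r : Fin n → Fin n → Bool) : Finset (Fin n × Fin n) :=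
  univ.filter (fun p => r p.1 p.2 = true)

/-- the ordered incomparable pairs -/
def HIGH_inc {n : ℕ} (r : Fin n → Fin n → Bool) : Finset (Fin n × Fin n) :=
  univ.filter (fun p => p.1 ≠ p.2 ∧ r p.1 p.2 = false ∧ r p.2 p.1 = false)

theorem HIGH_mem {n k : ℕ} {r : Fin n → Fin n → Bool} : r ∈ PO n k ↔
    (∀ i : Fin n, r i i = false) ∧
      (∀ i j l : Fin n, r i j = true → r j l = true → r i l = true) ∧ (HIGH_pr r).card = k := by
  unfold PO HIGH_pr
  rw [Finset.mem_filter]
  exact ⟨fun h => h.2, fun h => ⟨mem_univ _, h⟩⟩

theorem HIGH_inc_card {n k : ℕ} {r : Fin n → Fin n → Bool} (hr : r ∈ PO n k) :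
    (HIGH_inc r).card + 2 * k = n * (n - 1) := by
  obtain ⟨h1, h2, h3⟩ := HIGH_mem.1 hr
  have hanti : ∀ a b, r a b = true → r b a = true → False := by
    intro a b hab hba
    have := h2 a b a hab hba
    rw [h1 a] at this
    exact Bool.false_ne_true this
  have hne : ∀ a b, r a b = true → a ≠ b := by
    rintro a b hab rfl
    rw [h1 a] at hab
    exact Bool.false_ne_true hab
  have hC : ((HIGH_pr r).image Prod.swap).card = k := by
    rw [Finset.card_image_of_injective _ Prod.swap_injective, h3]
  have hd1 : Disjoint (HIGH_pr r) ((HIGH_pr r).image Prod.swap) := by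
    rw [Finset.disjoint_left]
    rintro ⟨a, b⟩ ha hb
    rw [Finset.mem_image] at hb
    obtain ⟨⟨c, e⟩, hc, he⟩ := hb
    simp only [Prod.swap_prod_mk, Prod.mk.injEq] at he
    obtain ⟨rfl, rfl⟩ := he
    simp only [HIGH_pr, Finset.mem_filter, mem_univ, true_and] at ha hc
    exact hanti _ _ ha hc
  have hd2 : Disjoint (HIGH_inc r) (HIGH_pr r ∪ (HIGH_pr r).image Prod.swap) := by
    rw [Finset.disjoint_left]
    rintro ⟨a, b⟩ ha hb
    simp only [HIGH_inc, Finset.mem_filter, mem_univ, true_and] at ha
    rw [Finset.mem_union, Finset.mem_image] at hb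
    rcases hb with hb | ⟨⟨c, e⟩, hc, he⟩
    · simp only [HIGH_pr, Finset.mem_filter, mem_univ, true_and] at hb
      rw [ha.2.1] at hb
      exact Bool.false_ne_true hb
    · simp only [Prod.swap_prod_mk, Prod.mk.injEq] at he
      obtain ⟨rfl, rfl⟩ := he
      simp only [HIGH_pr, Finset.mem_filter, mem_univ, true_and] at hc
      rw [ha.2.2] at hc
      exact Bool.false_ne_true hc
  have hU : (univ : Finset (Fin n)).offDiag =
      HIGH_inc r ∪ (HIGH_pr r ∪ (HIGH_pr r).image Prod.swap) := by
    ext ⟨a, b⟩
    simp only [Finset.mem_offDiag, mem_univ, true_and, Finset.mem_union, Finset.mem_image,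
      HIGH_inc, HIGH_pr, Finset.mem_filter, Prod.exists, Prod.swap_prod_mk, Prod.mk.injEq]
    constructor
    · intro hab
      by_cases c1 : r a b = true
      · exact Or.inr (Or.inl c1)
      · by_cases c2 : r b a = true
        · exact Or.inr (Or.inr ⟨b, a, c2, rfl, rfl⟩)
        · exact Or.inl ⟨hab, by simpa using c1, by simpa using c2⟩
    · rintro (h | h | ⟨c, e, h, rfl, rfl⟩)
      · exact h.1
      · exact hne _ _ h
      · exact (hne _ _ h).symm
  have hcard := congrArg Finset.card hU
  rw [Finset.card_union_of_disjoint hd2, Finset.card_union_of_disjoint hd1, hC, h3,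
    Finset.offDiag_card, Finset.card_univ, Fintype.card_fin] at hcard
  have h5 : n * (n - 1) = n * n - n := by rw [Nat.mul_sub, Nat.mul_one]
  rw [h5, hcard]
  ring

theorem HIGH_cover {n k : ℕ} {r : Fin n → Fin n → Bool} (hr : r ∈ PO n k) {x : Fin n}
    (hx : ∃ y, r x y = true) :
    ∃ y, r x y = true ∧ ∀ z, r x z = true → r z y = true → False := by
  obtain ⟨h1, h2, h3⟩ := HIGH_mem.1 hr
  obtain ⟨y0, hy0⟩ := hx
  have hne : (univ.filter fun y => r x y = true).Nonempty :=
    ⟨y0, by rw [Finset.mem_filter]; exact ⟨mem_univ _, hy0⟩⟩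
  obtain ⟨y, hy, hmin⟩ := Finset.exists_min_image _
    (fun y => (univ.filter fun z => r z y = true).card) hne
  rw [Finset.mem_filter] at hy
  refine ⟨y, hy.2, ?_⟩
  intro z hxz hzy
  have h4 := hmin z (by rw [Finset.mem_filter]; exact ⟨mem_univ _, hxz⟩)
  have h5 : (univ.filter fun w => r w z = true).card < (univ.filter fun w => r w y = true).card := by
    apply Finset.card_lt_card
    rw [Finset.ssubset_iff_of_subset]
    · refine ⟨z, by rw [Finset.mem_filter]; exact ⟨mem_univ _, hzy⟩, ?_⟩
      rw [Finset.mem_filter, h1 z]
      simp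
    · intro w hw
      rw [Finset.mem_filter] at hw ⊢
      exact ⟨mem_univ _, h2 w z y hw.2 hzy⟩
  omega

theorem HIGH_del_mem {n k : ℕ} {r : Fin n → Fin n → Bool} (hr : r ∈ PO n k) {x y : Fin n}
    (hxy : r x y = true) (hc : ∀ z, r x z = true → r z y = true → False) :
    HIGH_del r x y ∈ PO n (k - 1) := by
  obtain ⟨h1, h2, h3⟩ := HIGH_mem.1 hr
  have hd : ∀ a b, HIGH_del r x y a b = true ↔ r a b = true ∧ ¬ (a = x ∧ b = y) := by
    intro a b
    unfold HIGH_del
    by_cases h : a = x ∧ b = y
    · rw [if_pos h]; simp [h]
    · rw [if_neg h]; exact ⟨fun h' => ⟨h', h⟩, fun h' => h'.1⟩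
  rw [HIGH_mem]
  refine ⟨?_, ?_, ?_⟩
  · intro i
    unfold HIGH_del
    split_ifs
    · rfl
    · exact h1 i
  · intro i l m hil hlm
    rw [hd] at hil hlm ⊢
    refine ⟨h2 i l m hil.1 hlm.1, ?_⟩
    rintro ⟨rfl, rfl⟩
    exact hc l hil.1 hlm.1
  · have e : HIGH_pr (HIGH_del r x y) = (HIGH_pr r).erase (x, y) := by
      ext ⟨a, b⟩
      simp only [HIGH_pr, Finset.mem_filter, mem_univ, true_and, Finset.mem_erase, ne_eq,
        Prod.mk.injEq]
      rw [hd]
      tauto
    rw [e, Finset.card_erase_of_mem, h3]
    simp only [HIGH_pr, Finset.mem_filter, mem_univ, true_and]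
    exact hxy

theorem t_HIGH : S_HIGH := by
  intro n j hn
  classical
  have hn1 : 1 ≤ n := by omega
  have hev : 2 * n.choose 2 = n * (n - 1) := by
    rw [Nat.choose_two_right]
    exact Nat.mul_div_cancel' (Nat.even_mul_pred_self n).two_dvd
  have hjC : j + 1 ≤ n.choose 2 := by
    have h1 : n * 2 ≤ n * (n - 1) := Nat.mul_le_mul_left n (by omega)
    omega
  set k : ℕ := n.choose 2 - j with hk
  set T : (Fin n → Fin n → Bool) → (Fin n → Fin n → Bool) → Prop :=
    fun r r' => ∃ x y, r x y = true ∧ r' = HIGH_del r x y with hT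
  have hmain : (PO n k).card * (n - 1 - j) ≤ (PO n (k - 1)).card * (2 * (j + 1)) := by
    refine Finset.card_mul_le_card_mul T ?_ ?_
    · intro r hr
      obtain ⟨h1, h2, h3⟩ := HIGH_mem.1 hr
      have hinc := HIGH_inc_card hr
      set NM : Finset (Fin n) := univ.filter fun x => ∃ y, r x y = true with hNM
      have hcov : ∀ x ∈ NM, ∃ y, r x y = true ∧ ∀ z, r x z = true → r z y = true → False := by
        intro x hx
        rw [hNM, Finset.mem_filter] at hx
        exact HIGH_cover hr hx.2
      choose! c hc1 hc2 using hcov
      have hle : NM.card ≤ ((PO n (k - 1)).bipartiteAbove T r).card := by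
        refine Finset.card_le_card_of_injOn (fun x => HIGH_del r x (c x)) ?_ ?_
        · intro x hx
          have hx' : x ∈ NM := hx
          simp only [Finset.coe_bipartiteAbove, Set.mem_setOf_eq]
          exact ⟨HIGH_del_mem hr (hc1 x hx') (hc2 x hx'), x, c x, hc1 x hx', rfl⟩
        · intro x hx x' hx' hxx
          have hx0 : x ∈ NM := hx
          have e1 : HIGH_del r x (c x) x (c x) = false := by simp [HIGH_del]
          have hxx' : HIGH_del r x (c x) = HIGH_del r x' (c x') := hxx
          rw [hxx'] at e1
          unfold HIGH_del at e1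
          by_contra hne
          rw [if_neg (fun h => hne h.1), hc1 x hx0] at e1
          exact Bool.false_ne_true e1.symm
      refine le_trans ?_ hle
      -- maximal elements
      have hMc : NM.card + NMᶜ.card = n := by
        rw [Finset.card_add_card_compl, Fintype.card_fin]
      have hM : NMᶜ.card ≤ j + 1 := by
        by_cases hem : NMᶜ = ∅
        · rw [hem, Finset.card_empty]
          omega
        · obtain ⟨x0, hx0⟩ := Finset.nonempty_iff_ne_empty.2 hem
          have hmx : ∀ x ∈ NMᶜ, ∀ y, r x y = false := by
            intro x hx y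
            rw [Finset.mem_compl, hNM, Finset.mem_filter] at hx
            by_contra h
            exact hx ⟨mem_univ _, y, by simpa using h⟩
          set A : Finset (Fin n × Fin n) := (NMᶜ.erase x0).image fun x => (x0, x) with hA
          set B : Finset (Fin n × Fin n) := (NMᶜ.erase x0).image fun x => (x, x0) with hB
          have hAc : A.card = NMᶜ.card - 1 := by
            rw [hA, Finset.card_image_of_injective _ (fun a b h => by simpa using h),
              Finset.card_erase_of_mem hx0]
          have hBc : B.card = NMᶜ.card - 1 := by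
            rw [hB, Finset.card_image_of_injective _ (fun a b h => by simpa using h),
              Finset.card_erase_of_mem hx0]
          have hAB : Disjoint A B := by
            rw [Finset.disjoint_left]
            intro p hpA hpB
            rw [hA, Finset.mem_image] at hpA
            rw [hB, Finset.mem_image] at hpB
            obtain ⟨x, hx, rfl⟩ := hpA
            obtain ⟨y, hy, hyx⟩ := hpB
            rw [Prod.mk.injEq] at hyx
            rw [Finset.mem_erase] at hx
            exact hx.1 hyx.2.symm
          have hsub : A ∪ B ⊆ HIGH_inc r := by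
            intro p hp
            rw [Finset.mem_union] at hp
            rcases hp with hp | hp
            · rw [hA, Finset.mem_image] at hp
              obtain ⟨x, hx, rfl⟩ := hp
              rw [Finset.mem_erase] at hx
              simp only [HIGH_inc, Finset.mem_filter, mem_univ, true_and]
              exact ⟨hx.1.symm, hmx _ hx0 _, hmx _ hx.2 _⟩
            · rw [hB, Finset.mem_image] at hp
              obtain ⟨x, hx, rfl⟩ := hp
              rw [Finset.mem_erase] at hx
              simp only [HIGH_inc, Finset.mem_filter, mem_univ, true_and]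
              exact ⟨hx.1, hmx _ hx.2 _, hmx _ hx0 _⟩
          have h5 := Finset.card_le_card hsub
          rw [Finset.card_union_of_disjoint hAB, hAc, hBc] at h5
          omega
      omega
    · intro r' hr'
      have hinc := HIGH_inc_card hr'
      have hsub : (PO n k).bipartiteBelow T r' ⊆
          (HIGH_inc r').image fun p => HIGH_ins r' p.1 p.2 := by
        intro r hr
        rw [Finset.mem_bipartiteBelow] at hr
        obtain ⟨hr1, x, y, hxy, hdel⟩ := hr
        obtain ⟨h1, h2, h3⟩ := HIGH_mem.1 hr1
        rw [Finset.mem_image]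
        refine ⟨(x, y), ?_, ?_⟩
        · simp only [HIGH_inc, Finset.mem_filter, mem_univ, true_and]
          have hne : x ≠ y := by
            rintro rfl
            rw [h1 x] at hxy
            exact Bool.false_ne_true hxy
          refine ⟨hne, ?_, ?_⟩
          · rw [hdel]
            simp [HIGH_del]
          · rw [hdel]
            unfold HIGH_del
            split_ifs
            · rfl
            · by_contra h
              have h6 : r y x = true := by simpa using h
              have h7 := h2 x y x hxy h6
              rw [h1 x] at h7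
              exact Bool.false_ne_true h7
        · funext a b
          show HIGH_ins r' x y a b = r a b
          unfold HIGH_ins
          split_ifs with h
          · rw [h.1, h.2, hxy]
          · rw [hdel]
            unfold HIGH_del
            rw [if_neg h]
      refine (Finset.card_le_card hsub).trans (Finset.card_image_le.trans ?_)
      omega
  have h2 : 2 * (j + 1) ≤ n - 1 - j := by omega
  have h3 : (PO n k).card * (n - 1 - j) ≤ (PO n (k - 1)).card * (n - 1 - j) :=
    hmain.trans (Nat.mul_le_mul_left _ h2)
  exact Nat.le_of_mul_le_mul_right h3 (by omega)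

end Pool.Agent.H2R2.PC
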