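import Pool.Agent.H2R2.PC.Defs

set_option autoImplicit false

namespace Pool.Agent.H2R2.PC

open Finset

def LOWE_rel {n : ℕ} (r : Fin n → Fin n → Bool) : Finset (Fin n × Fin n) :=
  (Finset.univ : Finset (Fin n × Fin n)).filter (fun p => r p.1 p.2 = true)

def LOWE_add {n : ℕ} (r : Fin n → Fin n → Bool) (x y : Fin n) : Fin n → Fin n → Bool :=
  fun i l => if i = x ∧ l = y then true else r i l

def LOWE_del {n : ℕ} (r : Fin n → Fin n → Bool) (x y : Fin n) : Fin n → Fin n → Bool :=
  fun i l => if i = x ∧ l = y then false else r i l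

theorem LOWE_mem {n k : ℕ} {r : Fin n → Fin n → Bool} : r ∈ PO n k ↔
    (∀ i : Fin n, r i i = false) ∧
      (∀ i j l : Fin n, r i j = true → r j l = true → r i l = true) ∧
      (LOWE_rel r).card = k := by
  unfold PO LOWE_rel
  simp only [mem_filter, mem_univ, true_and]

theorem LOWE_rel_add {n : ℕ} {r : Fin n → Fin n → Bool} {x y : Fin n} (h : r x y = false) :
    (LOWE_rel (LOWE_add r x y)).card = (LOWE_rel r).card + 1 := by
  have h1 : LOWE_rel (LOWE_add r x y) = insert (x, y) (LOWE_rel r) := by
    ext ⟨i, l⟩
    simp only [LOWE_rel, LOWE_add, mem_filter, mem_univ, true_and, mem_insert, Prod.mk.injEq]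
    by_cases hc : i = x ∧ l = y
    · simp [hc]
    · simp [hc]
  rw [h1, Finset.card_insert_of_notMem]
  simp [LOWE_rel, h]

theorem LOWE_above {n k : ℕ} (hk : k ≤ n) (hn : n + 2 * k + 1 ≤ (n - k) ^ 2)
    {r : Fin n → Fin n → Bool} (hr : r ∈ PO n k) :
    k + 1 ≤ ((PO n (k + 1)).filter
      (fun r' => ∃ x y, r x y = false ∧ r' = LOWE_add r x y)).card := by
  classical
  rw [LOWE_mem] at hr
  obtain ⟨hirr, htr, hcard⟩ := hr
  let A : Finset (Fin n) := univ.filter (fun x => ∀ z, r z x = false)
  let B : Finset (Fin n) := univ.filter (fun y => ∀ z, r y z = false)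
  have hA : n - k ≤ A.card := by
    have h1 : (univ \ A) ⊆ (LOWE_rel r).image Prod.snd := by
      intro x hx
      simp only [A, mem_sdiff, mem_univ, mem_filter, true_and] at hx
      push Not at hx
      obtain ⟨z, hz⟩ := hx
      simp only [Bool.not_eq_false] at hz
      simp only [mem_image]
      refine ⟨(z, x), ?_, rfl⟩
      simp only [LOWE_rel, mem_filter, mem_univ, true_and]
      exact hz
    have h2 := (Finset.card_le_card h1).trans Finset.card_image_le
    rw [hcard, Finset.card_sdiff_of_subset (subset_univ A), Finset.card_univ,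
      Fintype.card_fin] at h2
    omega
  have hB : n - k ≤ B.card := by
    have h1 : (univ \ B) ⊆ (LOWE_rel r).image Prod.fst := by
      intro x hx
      simp only [B, mem_sdiff, mem_univ, mem_filter, true_and] at hx
      push Not at hx
      obtain ⟨z, hz⟩ := hx
      simp only [Bool.not_eq_false] at hz
      simp only [mem_image]
      refine ⟨(x, z), ?_, rfl⟩
      simp only [LOWE_rel, mem_filter, mem_univ, true_and]
      exact hz
    have h2 := (Finset.card_le_card h1).trans Finset.card_image_le
    rw [hcard, Finset.card_sdiff_of_subset (subset_univ B), Finset.card_univ,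
      Fintype.card_fin] at h2
    omega
  let Q : Finset (Fin n × Fin n) := (A ×ˢ B).filter (fun p => p.1 ≠ p.2 ∧ r p.1 p.2 = false)
  have hQ : k + 1 ≤ Q.card := by
    have h1 : A ×ˢ B ⊆ (Q ∪ (univ.image (fun i : Fin n => (i, i)))) ∪ LOWE_rel r := by
      rintro ⟨i, l⟩ hp
      by_cases hil : i = l
      · apply mem_union_left
        apply mem_union_right
        subst hil
        exact mem_image_of_mem _ (mem_univ i)
      · by_cases hrl : r i l = true
        · apply mem_union_right
          simp only [LOWE_rel, mem_filter, mem_univ, true_and]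
          exact hrl
        · apply mem_union_left
          apply mem_union_left
          simp only [Q, mem_filter]
          exact ⟨hp, hil, by simpa using hrl⟩
    have h2 := Finset.card_le_card h1
    have h3 := Finset.card_union_le (Q ∪ (univ.image (fun i : Fin n => (i, i)))) (LOWE_rel r)
    have h4 := Finset.card_union_le Q (univ.image (fun i : Fin n => (i, i)))
    have h5 : (univ.image (fun i : Fin n => (i, i))).card ≤ n := by
      refine Finset.card_image_le.trans ?_
      simp
    rw [Finset.card_product] at h2
    have h6 : (n - k) ^ 2 ≤ A.card * B.card := by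
      rw [pow_two]; exact Nat.mul_le_mul hA hB
    omega
  refine hQ.trans ?_
  refine Finset.card_le_card_of_injOn (fun p => LOWE_add r p.1 p.2) ?_ ?_
  · rintro ⟨x, y⟩ hp
    simp only [Q, A, B, coe_filter, mem_product, mem_filter, mem_univ, true_and,
      Set.mem_ofPred_eq] at hp
    obtain ⟨⟨hx, hy⟩, hne, hxy⟩ := hp
    simp only [coe_filter, Set.mem_ofPred_eq]
    refine ⟨?_, x, y, hxy, rfl⟩
    rw [LOWE_mem]
    refine ⟨?_, ?_, ?_⟩
    · intro i
      unfold LOWE_add
      rw [if_neg]
      · exact hirr i
      · rintro ⟨h1, h2⟩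
        exact hne (h1.symm.trans h2)
    · intro i j l hij hjl
      unfold LOWE_add at hij hjl ⊢
      by_cases h1 : i = x ∧ j = y
      · by_cases h2 : j = x ∧ l = y
        · exfalso
          exact hne (h2.1.symm.trans h1.2)
        · rw [if_neg h2, h1.2, hy l] at hjl
          exact absurd hjl (by simp)
      · rw [if_neg h1] at hij
        by_cases h2 : j = x ∧ l = y
        · rw [h2.1, hx i] at hij
          exact absurd hij (by simp)
        · rw [if_neg h2] at hjl
          have := htr i j l hij hjl
          by_cases h3 : i = x ∧ l = y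
          · rw [if_pos h3]
          · rw [if_neg h3]; exact this
    · rw [LOWE_rel_add hxy, hcard]
  · rintro ⟨x, y⟩ hp ⟨x', y'⟩ hp' he
    simp only [Q, coe_filter, Set.mem_ofPred_eq] at hp hp'
    have h1 := congrFun (congrFun he x) y
    simp only [LOWE_add, and_self, if_true] at h1
    by_cases hc : x = x' ∧ y = y'
    · rw [hc.1, hc.2]
    · rw [if_neg hc, hp.2.2] at h1
      exact absurd h1 (by simp)

theorem LOWE_below {n k : ℕ} {r' : Fin n → Fin n → Bool} (hr : r' ∈ PO n (k + 1)) :
    ((PO n k).filter (fun r => ∃ x y, r x y = false ∧ r' = LOWE_add r x y)).card ≤ k + 1 := by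
  classical
  rw [LOWE_mem] at hr
  rw [← hr.2.2]
  refine le_trans (Finset.card_le_card (t := (LOWE_rel r').image
    (fun p => LOWE_del r' p.1 p.2)) ?_) Finset.card_image_le
  intro r h
  simp only [mem_filter] at h
  obtain ⟨_, x, y, hxy, he⟩ := h
  simp only [mem_image]
  refine ⟨(x, y), ?_, ?_⟩
  · simp only [LOWE_rel, mem_filter, mem_univ, true_and]
    rw [he]
    simp [LOWE_add]
  · funext i l
    simp only [LOWE_del]
    by_cases hc : i = x ∧ l = y
    · rw [if_pos hc, hc.1, hc.2, hxy]
    · rw [if_neg hc, he]
      simp only [LOWE_add, if_neg hc]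

theorem t_LOWE : S_LOWE := by
  classical
  intro n k hk hn
  have h := Finset.card_mul_le_card_mul
    (r := fun (r r' : Fin n → Fin n → Bool) => ∃ x y, r x y = false ∧ r' = LOWE_add r x y)
    (s := PO n k) (t := PO n (k + 1)) (m := k + 1) (n := k + 1)
    (by
      intro r hr
      have := LOWE_above hk hn hr
      unfold Finset.bipartiteAbove
      convert this)
    (by
      intro r' hr
      have := LOWE_below hr
      unfold Finset.bipartiteBelow
      convert this)
  exact Nat.le_of_mul_le_mul_right h (Nat.succ_pos k)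

end Pool.Agent.H2R2.PC
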